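import Pool.Agent.Helper1_RL.Stmts

/-!
# RLA, module GLO: local form of `g j`
-/

noncomputable section

open scoped Topology
set_option maxSynthPendingDepth 3
open Set Metric

namespace Pool.Agent.RLim.H47

open Pool.Agent.RLim Pool.Agent.RF

theorem choose_eq (D : GData) {k l : ℕ} {X : E4} (h1 : ‖X - D.P k‖ < D.s k)
    (h2 : ‖X - D.P l‖ < D.s l) : k = l := by
  by_contra hne
  have h3 := D.disj k l hne
  have h4 : dist (D.P k) (D.P l) ≤ ‖X - D.P k‖ + ‖X - D.P l‖ := by
    calc dist (D.P k) (D.P l) ≤ dist (D.P k) X + dist X (D.P l) := dist_triangle _ _ _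
      _ = ‖X - D.P k‖ + ‖X - D.P l‖ := by
        rw [dist_comm (D.P k) X, dist_eq_norm, dist_eq_norm]
  have h5 := D.s_pos k
  have h6 := D.s_pos l
  linarith

theorem glo1 (D : GData) (j : ℕ) (k : ℕ) (hk : k < j) (X : E4) (hX : ‖X - D.P k‖ < D.s k) :
    D.g j X = D.G j k ((D.w k)⁻¹ • (X - D.P k)) := by
  have h : ∃ k < j, ‖X - D.P k‖ < D.s k := ⟨k, hk, hX⟩
  have h1 : h.choose = k := choose_eq D h.choose_spec.2 hX
  unfold GData.g
  rw [dif_pos h, h1]

/-- GLO: local form of `g j`. -/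
theorem glo (hBGS : BgScaleStmt) : GloStmt := by
  intro D j
  refine ⟨fun k hk X hX => glo1 D j k hk X hX, ?_⟩
  intro X hX
  by_cases h : ∃ k < j, ‖X - D.P k‖ < D.s k
  · obtain ⟨k, hk, hXk⟩ := h
    rw [glo1 D j k hk X hXk]
    have hs := D.s_pos k
    have hL : 0 < D.L k := lt_of_lt_of_le (by norm_num) (D.L_ge k)
    have hw : 0 < D.w k := div_pos hs hL
    have h1 : D.L k / 4 ≤ ‖(D.w k)⁻¹ • (X - D.P k)‖ := by
      rw [norm_smul, norm_inv, Real.norm_of_nonneg hw.le]
      have h2 := hX k hk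
      rw [inv_mul_eq_div, le_div_iff₀ hw]
      have h3 : D.L k / 4 * D.w k = D.s k / 4 := by
        unfold GData.w
        field_simp
      rw [h3]
      exact h2
    have h2 := D.out j k hk _ h1
    rw [h2]
    ext V W
    have h3 := hBGS D.r (D.dlt j) (D.w k) hw (D.dlt_pos j) (D.P k) X V W (D.P2 k) (D.P3 k)
    exact h3
  · unfold GData.g
    rw [dif_neg h]

end Pool.Agent.RLim.H47
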