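import Pool.Agent.Helper1_RL.Stmts

/-!
# RLA, module HOPF: the differential of the Hopf map
-/

noncomputable section

open scoped ContDiff Topology RealInnerProductSpace
set_option maxSynthPendingDepth 3
open Set Metric

namespace Pool.Agent.RLim.H47

open Pool.Agent.RLim Pool.Agent.RF

theorem nsq4 (x : E4) : ‖x‖ ^ 2 = x 0 ^ 2 + x 1 ^ 2 + x 2 ^ 2 + x 3 ^ 2 := by
  rw [EuclideanSpace.norm_sq_eq]
  simp [Fin.sum_univ_four]

theorem nsq3 (x : E3) : ‖x‖ ^ 2 = x 0 ^ 2 + x 1 ^ 2 + x 2 ^ 2 := by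
  rw [EuclideanSpace.norm_sq_eq]
  simp [Fin.sum_univ_three]

theorem inner4 (x y : E4) : ⟪x, y⟫ = x 0 * y 0 + x 1 * y 1 + x 2 * y 2 + x 3 * y 3 := by
  rw [PiLp.inner_apply, Fin.sum_univ_four]
  simp
  ring

theorem hopf_smooth : ContDiffOn ℝ ∞ hopf (Om (Fin 4)) := by
  have hc : ∀ i : Fin 4, ContDiff ℝ ∞ (fun X : E4 => X i) := fun i =>
    contDiff_piLp_apply (𝕜 := ℝ) (p := 2) (i := i)
  have hn : ∀ X ∈ Om (Fin 4), ‖X‖ ^ 2 ≠ 0 := by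
    intro X hX
    have : X ≠ 0 := hX
    positivity
  have hN : ContDiffOn ℝ ∞ (fun X : E4 => ‖X‖ ^ 2) (Om (Fin 4)) :=
    (contDiff_norm_sq ℝ).contDiffOn
  rw [contDiffOn_piLp]
  intro i
  fin_cases i
  · exact (((((hc 0).mul (hc 2)).add ((hc 1).mul (hc 3))).const_smul (2 : ℝ)).contDiffOn).div hN hn
  · exact (((((hc 1).mul (hc 2)).sub ((hc 0).mul (hc 3))).const_smul (2 : ℝ)).contDiffOn).div hN hn
  · exact ((((((hc 0).pow 2).add ((hc 1).pow 2)).sub ((hc 2).pow 2)).sub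
      ((hc 3).pow 2)).contDiffOn).div hN hn

/-- HOPF: the differential of the Hopf map. -/
theorem hopf_stmt : HopfStmt := by
  refine ⟨hopf_smooth, ?_⟩
  intro X hX V
  have hOm : Om (Fin 4) ∈ 𝓝 X := (isOpen_ne).mem_nhds hX
  have hd : DifferentiableAt ℝ hopf X :=
    ((hopf_smooth X hX).contDiffAt hOm).differentiableAt (by simp)
  have hl : HasDerivAt (fun t : ℝ => X + t • V) V 0 := by
    have := ((hasDerivAt_id (0 : ℝ)).smul_const V).const_add X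
    simpa using this
  have h1 : HasDerivAt (fun t : ℝ => hopf (X + t • V)) (fderiv ℝ hopf X V) 0 := by
    have h2 : HasFDerivAt hopf (fderiv ℝ hopf X) (X + (0 : ℝ) • V) := by
      simpa using hd.hasFDerivAt
    exact h2.comp_hasDerivAt 0 hl
  have hcomp : ∀ i : Fin 3, HasDerivAt (fun t : ℝ => hopf (X + t • V) i)
      (fderiv ℝ hopf X V i) 0 := by
    intro i
    exact (EuclideanSpace.proj i : E3 →L[ℝ] ℝ).hasFDerivAt.comp_hasDerivAt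
      (0 : ℝ) h1
  have hx : ∀ i : Fin 4, HasDerivAt (fun t : ℝ => X i + t * V i) (V i) 0 := by
    intro i
    have := ((hasDerivAt_id (0 : ℝ)).mul_const (V i)).const_add (X i)
    simpa using this
  have hNpos : X 0 ^ 2 + X 1 ^ 2 + X 2 ^ 2 + X 3 ^ 2 ≠ 0 := by
    rw [← nsq4]
    positivity
  have hN : HasDerivAt (fun t : ℝ => (X 0 + t * V 0) ^ 2 + (X 1 + t * V 1) ^ 2 +
      (X 2 + t * V 2) ^ 2 + (X 3 + t * V 3) ^ 2)
      (2 * (X 0 * V 0 + X 1 * V 1 + X 2 * V 2 + X 3 * V 3)) 0 := by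
    have := ((((hx 0).pow 2).add ((hx 1).pow 2)).add ((hx 2).pow 2)).add ((hx 3).pow 2)
    refine this.congr_deriv ?_
    simp
    ring
  have hN0 : (X 0 + 0 * V 0) ^ 2 + (X 1 + 0 * V 1) ^ 2 + (X 2 + 0 * V 2) ^ 2 +
      (X 3 + 0 * V 3) ^ 2 ≠ 0 := by
    simpa using hNpos
  set N := X 0 ^ 2 + X 1 ^ 2 + X 2 ^ 2 + X 3 ^ 2 with hNdef
  have e0 : fderiv ℝ hopf X V 0 = (2 * (V 0 * X 2 + X 0 * V 2 + (V 1 * X 3 + X 1 * V 3)) * N -
      2 * (X 0 * X 2 + X 1 * X 3) * (2 * (X 0 * V 0 + X 1 * V 1 + X 2 * V 2 + X 3 * V 3))) /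
      N ^ 2 := by
    have h3 := ((((hx 0).mul (hx 2)).add ((hx 1).mul (hx 3))).const_mul (2 : ℝ)).div hN hN0
    have h4 : (fun t : ℝ => hopf (X + t • V) 0) = fun t : ℝ =>
        2 * ((X 0 + t * V 0) * (X 2 + t * V 2) + (X 1 + t * V 1) * (X 3 + t * V 3)) /
        ((X 0 + t * V 0) ^ 2 + (X 1 + t * V 1) ^ 2 + (X 2 + t * V 2) ^ 2 +
          (X 3 + t * V 3) ^ 2) := by
      funext t
      simp [hopf, nsq4]
    have h5 := hcomp 0
    rw [h4] at h5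
    rw [h5.unique h3]
    simp [hNdef]
  have e1 : fderiv ℝ hopf X V 1 = (2 * (V 1 * X 2 + X 1 * V 2 - (V 0 * X 3 + X 0 * V 3)) * N -
      2 * (X 1 * X 2 - X 0 * X 3) * (2 * (X 0 * V 0 + X 1 * V 1 + X 2 * V 2 + X 3 * V 3))) /
      N ^ 2 := by
    have h3 := ((((hx 1).mul (hx 2)).sub ((hx 0).mul (hx 3))).const_mul (2 : ℝ)).div hN hN0
    have h4 : (fun t : ℝ => hopf (X + t • V) 1) = fun t : ℝ =>
        2 * ((X 1 + t * V 1) * (X 2 + t * V 2) - (X 0 + t * V 0) * (X 3 + t * V 3)) /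
        ((X 0 + t * V 0) ^ 2 + (X 1 + t * V 1) ^ 2 + (X 2 + t * V 2) ^ 2 +
          (X 3 + t * V 3) ^ 2) := by
      funext t
      simp [hopf, nsq4]
    have h5 := hcomp 1
    rw [h4] at h5
    rw [h5.unique h3]
    simp [hNdef]
  have e2 : fderiv ℝ hopf X V 2 = (2 * (X 0 * V 0 + X 1 * V 1 - X 2 * V 2 - X 3 * V 3) * N -
      (X 0 ^ 2 + X 1 ^ 2 - X 2 ^ 2 - X 3 ^ 2) *
        (2 * (X 0 * V 0 + X 1 * V 1 + X 2 * V 2 + X 3 * V 3))) / N ^ 2 := by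
    have h3 := (((((hx 0).pow 2).add ((hx 1).pow 2)).sub ((hx 2).pow 2)).sub
      ((hx 3).pow 2)).div hN hN0
    have h4 : (fun t : ℝ => hopf (X + t • V) 2) = fun t : ℝ =>
        ((X 0 + t * V 0) ^ 2 + (X 1 + t * V 1) ^ 2 - (X 2 + t * V 2) ^ 2 -
          (X 3 + t * V 3) ^ 2) /
        ((X 0 + t * V 0) ^ 2 + (X 1 + t * V 1) ^ 2 + (X 2 + t * V 2) ^ 2 +
          (X 3 + t * V 3) ^ 2) := by
      funext t
      simp [hopf, nsq4]
    have h5 := hcomp 2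
    rw [h4] at h5
    rw [h5.unique h3]
    simp [hNdef]
    ring
  have hX4 : ‖X‖ ^ 4 = N ^ 2 := by
    have : ‖X‖ ^ 4 = (‖X‖ ^ 2) ^ 2 := by ring
    rw [this, nsq4]
  rw [hX4, nsq3, e0, e1, e2, nsq4 X, nsq4 V, inner4, inner4]
  have hJ0 : JJ X 0 = -X 1 := rfl
  have hJ1 : JJ X 1 = X 0 := rfl
  have hJ2 : JJ X 2 = -X 3 := rfl
  have hJ3 : JJ X 3 = X 2 := rfl
  rw [hJ0, hJ1, hJ2, hJ3, ← hNdef]
  field_simp
  rw [hNdef]
  ring

end Pool.Agent.RLim.H47
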